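import Pool.Agent.Y825.IV.Chain

/-!
The lattice of inclusive subvarieties of the inclusive variety generated by the eight element
Boolean semilattice contains a chain of the order type of the real line.

For `m ≤ r` let `SArc r m` be the semilattice of the arcs with at most `m + 1` points of the cyclic
group `ZMod (2 r + 1)`, and the empty set. For `0 < k`, `2 k < N ≤ 3 k` let `law N k` be the
inclusion: `x₁ x₂ x₃` is one of `x₁ x₂`, `x₂ x₃`, `x₁ x₃`, or a product of `k + 1` cyclically
consecutive letters of an `N`-cycle of letters, in which `x₁, x₂, x₃` have the positions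
`0, k, 2 k`. It holds in `SArc r m` if and only if `m / (2 r + 1) < k / N`
(`Y825/IV/Arcs.lean`, winding numbers). The inclusive variety of the real parameter `θ` is given,
inside the one generated by the Boolean semilattice, by the laws with `θ < k / N`.
-/

set_option autoImplicit false

namespace Pool.Agent.Results.MP_ea093d_al.RealChain

open Pool.Agent.Results.MP_ea093d_al.InfiniteLattice Pool.Agent.Y825.IV

universe u

/-- The inclusive variety generated by `S` has inclusive subvarieties `F x`, one for every real
number `x`, with `F x` strictly contained in `F y` for `x < y`; moreover `F x` and `F y` already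
differ in a finite semilattice. -/
def HasRealChain (S : Type) [Semigroup S] : Prop :=
  ∃ F : ℝ → SemigroupClass.{u},
    (∀ x, IsInclusiveVariety (F x) ∧ ∀ (T : Type u) [Semigroup T], F x T → generatedBy S T) ∧
    ∀ x y, x < y → (∀ (T : Type u) [Semigroup T], F x T → F y T) ∧
      ∃ (T : Type u) (_ : Semigroup T), Finite T ∧ (∀ a b : T, a * b = b * a) ∧
        (∀ a : T, a * a = a) ∧ F y T ∧ ¬ F x T

lemma hasRealChain_of_divisor (S : Type) [Semigroup S] (U : Subsemigroup S) (f : U →ₙ* Cube)
    (hf : Function.Surjective f) : HasRealChain.{u} S := by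
  refine ⟨fun x => V (par x), fun x => ⟨V_isInclusiveVariety _, ?_⟩, fun x y hxy => ⟨?_, ?_⟩⟩
  · intro T _ hT i hi
    exact hT.1 i (divisor U f hf i hi)
  · intro T _ hT
    exact V_mono (par_lt hxy).le T hT
  · obtain ⟨r, m, h1, h2⟩ := V_strict.{u} (par_mem x).1 (par_mem y).2 (par_lt hxy)
    refine ⟨USArc.{u} r m, inferInstance, inferInstance, fun a b => mul_comm a b, ?_, h1, h2⟩
    intro a
    exact ULift.ext _ _ (Subtype.ext (arc_mul_self a.down.1))

/-- **A chain of the order type of the reals.** The inclusive variety generated by the eight element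
Boolean semilattice (a finite commutative idempotent semigroup) has a chain of inclusive
subvarieties which is ordered like the real numbers; and so has the inclusive variety generated by
any semigroup `S` having that semilattice as a homomorphic image of a subsemigroup. -/
theorem result :
    (∃ (S : Type) (_ : Semigroup S), Nat.card S = 8 ∧ (∀ a b : S, a * b = b * a) ∧
      (∀ a : S, a * a = a) ∧ HasRealChain.{u} S) ∧
    ∀ (S : Type) [Semigroup S] (U : Subsemigroup S) (f : U →ₙ* Cube),
      Function.Surjective f → HasRealChain.{u} S := by
  refine ⟨⟨Cube, inferInstance, ?_, ?_, ?_, ?_⟩, fun S _ U f hf => hasRealChain_of_divisor S U f hf⟩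
  · have e : Cube ≃ Finset (Fin 3) :=
      ⟨Cube.carrier, fun A => ⟨A⟩, fun A => rfl, fun A => rfl⟩
    rw [Nat.card_congr e, Nat.card_eq_fintype_card, Fintype.card_finset, Fintype.card_fin]
    norm_num
  · intro a b
    exact Cube.ext (Finset.inter_comm _ _)
  · intro a
    exact Cube.ext (Finset.inter_self _)
  · refine hasRealChain_of_divisor Cube ⊤ (MulMemClass.subtype ⊤) ?_
    intro a
    exact ⟨⟨a, trivial⟩, rfl⟩

end Pool.Agent.Results.MP_ea093d_al.RealChain
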